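import Pool.Agent.H79.BN.Targets

/-!
# A chain in a set of positive measure
-/

set_option autoImplicit false

namespace Pool.Agent.H11.BN

open MeasureTheory Set Filter Topology Pool.Agent.H93.BL Pool.Agent.H79.BN

lemma meets {Φ : Set ℝ} {x r : ℝ} {N : ℕ} (hr : 0 < r) (hN : 0 < N)
    (h : ENNReal.ofReal ((1 - 1 / N) * (2 * r)) < volume (Φ ∩ Metric.closedBall x r)) (k : ℕ)
    (hk : k < N) :
    ∃ t ∈ Φ, x - r + 2 * r * k / N ≤ t ∧ t < x - r + 2 * r * (k + 1) / N := by
  by_contra hcon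
  push Not at hcon
  have hNr : (0 : ℝ) < N := by exact_mod_cast hN
  have hkN : (k : ℝ) + 1 ≤ N := by exact_mod_cast hk
  have hk0 : (0 : ℝ) ≤ k := Nat.cast_nonneg k
  have hsub : Φ ∩ Metric.closedBall x r ⊆ Metric.closedBall x r \
      Ico (x - r + 2 * r * k / N) (x - r + 2 * r * (k + 1) / N) := by
    rintro t ⟨ht, htb⟩
    refine ⟨htb, fun hti => ?_⟩
    exact absurd hti.2 (not_lt.2 (hcon t ht hti.1))
  have hI : Ico (x - r + 2 * r * k / N) (x - r + 2 * r * (k + 1) / N) ⊆
      Metric.closedBall x r := by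
    rw [Real.closedBall_eq_Icc]
    intro t ht
    have h1 : 0 ≤ 2 * r * k / N := by positivity
    have h2 : 2 * r * (k + 1) / N ≤ 2 * r := by
      rw [div_le_iff₀ hNr]
      nlinarith
    exact ⟨by linarith [ht.1], by linarith [ht.2]⟩
  have hv : volume (Metric.closedBall x r \
      Ico (x - r + 2 * r * k / N) (x - r + 2 * r * (k + 1) / N)) =
      ENNReal.ofReal ((1 - 1 / N) * (2 * r)) := by
    rw [measure_sdiff hI measurableSet_Ico.nullMeasurableSet (by
      rw [Real.volume_Ico]; exact ENNReal.ofReal_ne_top), Real.volume_closedBall, Real.volume_Ico]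
    have h1 : x - r + 2 * r * (k + 1) / N - (x - r + 2 * r * k / N) = 2 * r / N := by
      field_simp
      ring
    rw [h1, ← ENNReal.ofReal_sub _ (by positivity)]
    congr 1
    field_simp
  exact absurd (lt_of_lt_of_le h (measure_mono hsub)) (by rw [hv]; exact lt_irrefl _)

theorem w2 : T_W2 := by
  intro Φ κ K M hΦ hκ hK
  obtain ⟨N, hN4, hNK⟩ : ∃ N : ℕ, 4 ≤ N ∧ 16 * K / κ < N := by
    obtain ⟨n, hn⟩ := exists_nat_gt (16 * K / κ)
    exact ⟨max 4 n, le_max_left _ _, lt_of_lt_of_le hn (by exact_mod_cast le_max_right _ _)⟩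
  have hN0 : 0 < N := by omega
  have hNr : (0 : ℝ) < N := by exact_mod_cast hN0
  have hN4r : (4 : ℝ) ≤ N := by exact_mod_cast hN4
  have h1 := Besicovitch.ae_tendsto_measure_inter_div (volume : Measure ℝ) Φ
  have hne : (ae (volume.restrict Φ)).NeBot := by
    rw [ae_neBot, Ne, Measure.restrict_eq_zero]
    exact hΦ
  obtain ⟨x, hx⟩ := h1.exists
  have hq : ENNReal.ofReal (1 - 1 / N) < 1 := by
    rw [← ENNReal.ofReal_one, ENNReal.ofReal_lt_ofReal_iff one_pos]
    have : 0 < 1 / (N : ℝ) := by positivity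
    linarith
  have h2 := hx.eventually (eventually_gt_nhds hq)
  have hr1 : 0 < min (1 / 4) (4 * K / (|M| + 1)) := by
    have := abs_nonneg M
    exact lt_min (by norm_num) (by positivity)
  obtain ⟨r, hr2, hr3⟩ := (h2.and (Ioo_mem_nhdsGT hr1)).exists
  have hr0 : 0 < r := hr3.1
  have hr4 : r < 1 / 4 := lt_of_lt_of_le hr3.2 (min_le_left _ _)
  have hrM : r < 4 * K / (|M| + 1) := lt_of_lt_of_le hr3.2 (min_le_right _ _)
  have hvol : ENNReal.ofReal ((1 - 1 / N) * (2 * r)) < volume (Φ ∩ Metric.closedBall x r) := by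
    have h3 : volume (Metric.closedBall x r) = ENNReal.ofReal (2 * r) := Real.volume_closedBall x r
    have h5 : 0 ≤ 1 - 1 / (N : ℝ) := by
      have : 1 / (N : ℝ) ≤ 1 := by
        rw [div_le_one hNr]
        linarith
      linarith
    rw [h3] at hr2
    have h4 : ENNReal.ofReal (1 - 1 / N) * ENNReal.ofReal (2 * r) <
        volume (Φ ∩ Metric.closedBall x r) := by
      have h6 : ENNReal.ofReal (2 * r) ≠ 0 := by
        rw [Ne, ENNReal.ofReal_eq_zero, not_le]
        linarith
      exact (ENNReal.lt_div_iff_mul_lt (Or.inl h6) (Or.inl ENNReal.ofReal_ne_top)).1 hr2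
    rwa [← ENNReal.ofReal_mul h5] at h4
  have hch : ∀ k : ℕ, ∃ t : ℝ, k < N → t ∈ Φ ∧ x - r + 2 * r * k / N ≤ t ∧
      t < x - r + 2 * r * (k + 1) / N := by
    intro k
    by_cases hk : k < N
    · obtain ⟨t, ht⟩ := meets hr0 hN0 hvol k hk
      exact ⟨t, fun _ => ht⟩
    · exact ⟨0, fun h => absurd h hk⟩
  choose θ hθ using hch
  have hD0 : 0 < 4 * K / r := by positivity
  refine ⟨4 * K / r, N - 1, θ, hD0, ?_, fun k hk => (hθ k (by omega)).1, fun k hk => ⟨?_, ?_⟩,
    ?_, ?_⟩
  · have h3 : (|M| + 1) * r < 4 * K := by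
      have := abs_nonneg M
      rw [lt_div_iff₀ (by positivity)] at hrM
      linarith
    have h4 : |M| + 1 < 4 * K / r := by
      rw [lt_div_iff₀ hr0]
      exact h3
    linarith [le_abs_self M]
  · have h3 := (hθ k (by omega)).2.2
    have h4 := (hθ (k + 1) (by omega)).2.1
    push_cast at h4
    linarith
  · have h3 := (hθ k (by omega)).2.1
    have h4 := (hθ (k + 1) (by omega)).2.2
    push_cast at h4
    have h5 : θ (k + 1) - θ k < 4 * r / N := by
      have h6 : 4 * r / N = 2 * r * (k + 1 + 1) / N - 2 * r * k / N := by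
        field_simp
        ring
      linarith
    have h7 : (θ (k + 1) - θ k) * (4 * K / r) < 4 * r / N * (4 * K / r) :=
      mul_lt_mul_of_pos_right h5 hD0
    have h8 : 4 * r / N * (4 * K / r) = 16 * K / N := by
      field_simp
      norm_num
    rw [h8] at h7
    have h9 : 16 * K / N < κ := by
      rw [div_lt_iff₀ hκ] at hNK
      rw [div_lt_iff₀ hNr]
      linarith
    linarith
  · have h3 := (hθ (N - 1) (by omega)).2.1
    have h4 := (hθ 0 hN0).2.2
    have hc : ((N - 1 : ℕ) : ℝ) = N - 1 := by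
      rw [Nat.cast_sub (by omega), Nat.cast_one]
    rw [hc] at h3
    push_cast at h4
    have h5 : r ≤ θ (N - 1) - θ 0 := by
      have h6 : 2 * r * (N - 1) / N - 2 * r * (0 + 1) / N = 2 * r - 4 * r / N := by
        field_simp
        ring
      have h7 : 4 * r / N ≤ r := by
        rw [div_le_iff₀ hNr]
        nlinarith
      linarith
    have h8 : r * (4 * K / r) ≤ (θ (N - 1) - θ 0) * (4 * K / r) :=
      mul_le_mul_of_nonneg_right h5 hD0.le
    have h9 : r * (4 * K / r) = 4 * K := by field_simp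
    linarith
  · have h3 := (hθ (N - 1) (by omega)).2.2
    have h4 := (hθ 0 hN0).2.1
    have hc : ((N - 1 : ℕ) : ℝ) = N - 1 := by
      rw [Nat.cast_sub (by omega), Nat.cast_one]
    rw [hc] at h3
    have h5 : 2 * r * ((N : ℝ) - 1 + 1) / N = 2 * r := by
      rw [sub_add_cancel]
      field_simp
    have h6 : 2 * r * ((0 : ℕ) : ℝ) / N = 0 := by simp
    rw [h6] at h4
    rw [h5] at h3
    linarith

end Pool.Agent.H11.BN
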